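import Pool.Agent.Lib.MP_d439b2_co.UB.Bags

/-!
# MP_d439b2_co, UB: `RG N n` has no induced minor `co(4 P_2)`
-/

set_option autoImplicit false

namespace Pool.Agent.MPd439b2.UB

open Pool.Agent.MPd439b2 Pool.Agent.MPd439b2.F9

/-- the rows of the classes `t` and `u` -/
theorem tu {n : ℕ} {b : Bool} {a : Fin 4} {p : ℕ} {e : Bool} {q : ℕ} (ha : a ≠ 1 ∧ a ≠ 2) :
    RD n a p b e q ↔ (a ≠ 3 ∧ e = false ∧ q < p) ∨ (a = 3 ∧ (e = false ∨ p < q + bif b then n else 0)) := by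
  simp only [RD]
  fin_cases a
  · simp
  · simp at ha
  · simp at ha
  · cases b <;> simp

/-- the rows of the classes `t` and `u` form a chain -/
theorem chain {n : ℕ} {b b' : Bool} {a a' : Fin 4} {p p' : ℕ} {e e' : Bool} {q q' : ℕ}
    (ha : a ≠ 1 ∧ a ≠ 2) (ha' : a' ≠ 1 ∧ a' ≠ 2)
    (h : RD n a p b e q) (h' : ¬ RD n a' p' b e q)
    (g : RD n a' p' b' e' q') (g' : ¬ RD n a p b' e' q') : False := by
  rw [tu ha] at h g'
  rw [tu ha'] at h' g
  generalize (bif b then n else 0) = s at h h'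
  generalize (bif b' then n else 0) = s' at g g'
  clear ha ha'
  by_cases h3 : a = 3
  · by_cases h4 : a' = 3
    · rcases h with ⟨h, -⟩ | ⟨-, h⟩
      · exact h h3
      rcases g with ⟨g, -⟩ | ⟨-, g⟩
      · exact g h4
      rcases h with h | h
      · exact h' (Or.inr ⟨h4, Or.inl h⟩)
      rcases g with g | g
      · exact g' (Or.inr ⟨h3, Or.inl g⟩)
      have k1 : ¬ p' < q + s := fun k => h' (Or.inr ⟨h4, Or.inr k⟩)
      have k2 : ¬ p < q' + s' := fun k => g' (Or.inr ⟨h3, Or.inr k⟩)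
      omega
    · rcases g with ⟨-, g, -⟩ | ⟨g, -⟩
      · exact g' (Or.inr ⟨h3, Or.inl g⟩)
      · exact h4 g
  · rcases h with ⟨-, h, hq⟩ | ⟨h, -⟩
    · by_cases h4 : a' = 3
      · exact h' (Or.inr ⟨h4, Or.inl h⟩)
      · rcases g with ⟨-, g, gq⟩ | ⟨g, -⟩
        · have k1 : ¬ q < p' := fun k => h' (Or.inl ⟨h4, h, k⟩)
          have k2 : ¬ q' < p := fun k => g' (Or.inl ⟨h3, g, k⟩)
          omega
        · exact h4 g
    · exact h3 h

/-- a row which meets both stable sets is of class `t` or `u` -/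
theorem cls {n : ℕ} {a : Fin 4} {p : ℕ} {e e' : Bool} {q q' : ℕ} (h : RD n a p false e q)
    (h' : RD n a p true e' q') : a ≠ 1 ∧ a ≠ 2 := by
  simp only [RD] at h h'
  refine ⟨?_, ?_⟩
  · rintro rfl
    simp at h'
  · rintro rfl
    simp at h

/-- no four pairs -/
theorem noFour {N n : ℕ} {W : Type} (H : SimpleGraph W) (a b : Fin 4 → W)
    (hne : ∀ i, a i ≠ b i) (hn : ∀ i, ¬ H.Adj (a i) (b i))
    (hd : ∀ i j, i ≠ j → ∀ x y, (x = a i ∨ x = b i) → (y = a j ∨ y = b j) → H.Adj x y) :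
    ¬ IsIndMinor H (RG N n) := by
  classical
  rintro ⟨B, hcon, hdis, hadj⟩
  have hco : ∀ w, Conn (RG N n) (B w) := fun w => (conn_iff _ _).mpr (hcon w)
  have hnn : ∀ w w', w ≠ w' → ¬ H.Adj w w' → ∀ x ∈ B w, ∀ y ∈ B w', ¬ (RG N n).Adj x y :=
    fun w w' h1 h2 x hx y hy hxy => h2 ((hadj w w' h1).mpr ⟨x, hx, y, hy, hxy⟩)
  -- the member without clique vertices
  have h1 : ∀ i, ∃ e f : W, ¬ hC (B e) ∧ e ≠ f ∧ ¬ H.Adj e f ∧ (e = a i ∨ e = b i) ∧
      (f = a i ∨ f = b i) := by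
    intro i
    by_cases h : hC (B (a i))
    · refine ⟨b i, a i, fun h' => ?_, (hne i).symm, fun h' => hn i h'.symm, Or.inr rfl, Or.inl rfl⟩
      obtain ⟨x, hx, y, hy, hxy⟩ := adj_of_hC (n := n) (hdis _ _ (hne i)) h h'
      exact hnn _ _ (hne i) (hn i) x hx y hy hxy
    · exact ⟨a i, b i, h, hne i, hn i, Or.inl rfl, Or.inr rfl⟩
  choose e f hC' hef hna he hf using h1
  have hee : ∀ i j, i ≠ j → H.Adj (e i) (e j) := fun i j h => hd i j h _ _ (he i) (he j)
  have hfe : ∀ i j, i ≠ j → H.Adj (f i) (e j) := fun i j h => hd i j h _ _ (hf i) (he j)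
  -- kinds
  have h2 : ∀ i, ∃ κ : Option Bool, (κ = none → hZ (B (e i)) false ∧ hZ (B (e i)) true) ∧
      ∀ β, κ = some β → ¬ hZ (B (e i)) (!β) := by
    intro i
    by_cases hf' : hZ (B (e i)) false
    · by_cases ht : hZ (B (e i)) true
      · exact ⟨none, fun _ => ⟨hf', ht⟩, fun β hβ => absurd hβ (by simp)⟩
      · refine ⟨some false, fun h => absurd h (by simp), fun β hβ => ?_⟩
        rw [← Option.some_injective _ hβ]
        exact ht
    · refine ⟨some true, fun h => absurd h (by simp), fun β hβ => ?_⟩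
      rw [← Option.some_injective _ hβ]
      exact hf'
  choose κ hκ1 hκ2 using h2
  obtain ⟨i, j, hij, hκ⟩ := Fintype.exists_ne_map_eq_of_card_lt κ (by decide)
  -- both are mixed
  have hκn : κ i = none := by
    rcases hk : κ i with _ | β
    · rfl
    · exfalso
      obtain ⟨x, hx, y, hy, hxy⟩ := (hadj _ _ (hee i j hij).ne).mp (hee i j hij)
      rcases x with x | ⟨bx, x⟩
      · exact hC' i ⟨x, hx⟩
      rcases y with y | ⟨by_, y⟩
      · exact hC' j ⟨y, hy⟩
      have hxb : bx = β := by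
        by_contra hb
        have : bx = !β := bne hb
        exact hκ2 i β hk ⟨x, this ▸ hx⟩
      have hyb : by_ = β := by
        by_contra hb
        have : by_ = !β := bne hb
        exact hκ2 j β (hκ ▸ hk) ⟨y, this ▸ hy⟩
      exact hxy (by rw [hxb, hyb])
  have hκn' : κ j = none := hκ ▸ hκn
  obtain ⟨⟨z0, hz0⟩, z1, hz1⟩ := hκ1 i hκn
  obtain ⟨⟨w0, hw0⟩, w1, hw1⟩ := hκ1 j hκn'
  -- the rows
  have rw_ : ∀ l x, Sum.inl x ∈ B (f l) → ∀ bz z, Sum.inr (bz, z) ∈ B (e l) →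
      RD n x.1 x.2.val bz z.1 z.2.val := by
    intro l x hx bz z hz
    by_contra hr
    exact hnn (f l) (e l) (hef l).symm (fun h => hna l h.symm) _ hx _ hz hr
  have get : ∀ l l', l ≠ l' → (∀ bz, hZ (B (e l)) bz) →
      ∃ x, Sum.inl x ∈ B (f l) ∧ ∃ bz z, Sum.inr (bz, z) ∈ B (e l') ∧
        ¬ RD n x.1 x.2.val bz z.1 z.2.val := by
    intro l l' hll hm
    obtain ⟨x, hx, y, hy, hxy⟩ := (hadj _ _ (hfe l l' hll).ne).mp (hfe l l' hll)
    rcases x with x | ⟨bx, x⟩
    · rcases y with y | ⟨by_, y⟩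
      · exact absurd ⟨y, hy⟩ (hC' l')
      · exact ⟨x, hx, by_, y, hy, hxy⟩
    · exfalso
      obtain ⟨z, hz⟩ := hm (!bx)
      refine hnn (f l) (e l) (hef l).symm (fun h => hna l h.symm) _ hx _ hz ?_
      show bx ≠ !bx
      cases bx <;> simp
  have mi : ∀ bz, hZ (B (e i)) bz := fun bz => by
    cases bz
    · exact ⟨z0, hz0⟩
    · exact ⟨z1, hz1⟩
  have mj : ∀ bz, hZ (B (e j)) bz := fun bz => by
    cases bz
    · exact ⟨w0, hw0⟩
    · exact ⟨w1, hw1⟩
  obtain ⟨x, hx, b1, v, hv, hxv⟩ := get i j hij mi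
  obtain ⟨y, hy, b2, w, hw, hyw⟩ := get j i hij.symm mj
  exact chain (cls (rw_ i x hx false z0 hz0) (rw_ i x hx true z1 hz1))
    (cls (rw_ j y hy false w0 hw0) (rw_ j y hy true w1 hw1)) (rw_ i x hx b2 w hw) hyw
    (rw_ j y hy b1 v hv) hxv

/-- **UB2.** -/
theorem noJ : S_NoJ := by
  intro N n
  refine noFour (JS ![0, 0, 1] 3)
    (fun i => Fin.cases (Sum.inl none) (fun i => Sum.inr (i, false)) i)
    (fun i => Fin.cases (Sum.inl (some ⟨2, ⟨0, by decide⟩⟩)) (fun i => Sum.inr (i, true)) i) ?_ ?_ ?_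
  · intro i
    refine Fin.cases ?_ (fun i => ?_) i
    · intro h
      exact absurd (Sum.inl_injective h) (by simp)
    · intro h
      exact absurd (Sum.inr_injective h) (by simp)
  · intro i
    refine Fin.cases ?_ (fun i => ?_) i
    · intro h
      exact h.2 rfl
    · intro h
      exact h rfl
  · intro i j
    refine Fin.cases ?_ (fun i => ?_) i
    · refine Fin.cases ?_ (fun j => ?_) j
      · intro h
        exact absurd rfl h
      · rintro - x y (rfl | rfl) (rfl | rfl) <;> exact trivial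
    · refine Fin.cases ?_ (fun j => ?_) j
      · rintro - x y (rfl | rfl) (rfl | rfl) <;> exact trivial
      · rintro h x y (rfl | rfl) (rfl | rfl) <;> exact fun h' => h (congrArg Fin.succ h')

end Pool.Agent.MPd439b2.UB
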