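import Pool.Agent.Lib.MP_d439b2_co.UB.Defs
import Pool.Agent.Lib.MP_d439b2_co.CWCut

/-!
# MP_d439b2_co, UB: `RG N n` has unbounded clique-width
-/

set_option autoImplicit false

namespace Pool.Agent.MPd439b2.UB

open Pool.Agent.MPd439b2 Pool.Agent.MPd439b2.F9

/-- vertices of `A` with different traces -/
theorem sep {V : Type} [Finite V] (G : SimpleGraph V) (A : Set V) (c : ℕ)
    (hc : {T : Set V | ∃ u ∈ A, T = G.neighborSet u \ A}.ncard ≤ c) (K : Finset ℕ) (f : ℕ → V)
    (hf : ∀ k ∈ K, f k ∈ A)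
    (hs : ∀ k ∈ K, ∀ k' ∈ K, k < k' → ∃ w, w ∉ A ∧ ¬ (G.Adj (f k) w ↔ G.Adj (f k') w)) :
    K.card ≤ c := by
  have hinj : Set.InjOn (fun k => G.neighborSet (f k) \ A) (K : Set ℕ) := by
    intro k hk k' hk' he
    by_contra hne
    have aux : ∀ k ∈ K, ∀ k' ∈ K, k < k' → G.neighborSet (f k) \ A ≠ G.neighborSet (f k') \ A := by
      intro k hk k' hk' hlt he
      obtain ⟨w, hw, h⟩ := hs k hk k' hk' hlt
      apply h
      constructor
      · intro h1
        have h2 : w ∈ G.neighborSet (f k) \ A := ⟨h1, hw⟩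
        rw [he] at h2
        exact h2.1
      · intro h1
        have h2 : w ∈ G.neighborSet (f k') \ A := ⟨h1, hw⟩
        rw [← he] at h2
        exact h2.1
    rcases Nat.lt_or_gt_of_ne hne with h | h
    · exact aux k hk k' hk' h he
    · exact aux k' hk' k hk h he.symm
  have hmaps : ∀ k ∈ (K : Set ℕ), (fun k => G.neighborSet (f k) \ A) k ∈
      {T : Set V | ∃ u ∈ A, T = G.neighborSet u \ A} := fun k hk => ⟨f k, hf k hk, rfl⟩
  have h1 := Set.ncard_le_ncard_of_injOn _ hmaps hinj (Set.toFinite _)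
  rw [Set.ncard_coe_finset] at h1
  omega

/-- consecutive rails: the relation -/
def Stp {V : Type} (G : SimpleGraph V) (n : ℕ) (f g : ℕ → V) : Prop :=
  (∀ k l, k < n → l < n → (G.Adj (f k) (g l) ↔ ¬ k < l)) ∨
  (∀ k l, k < n → l < n → (G.Adj (f k) (g l) ↔ ¬ k = l)) ∨
  (∀ k l, k < n → l < n → (G.Adj (f k) (g l) ↔ ¬ l < k))

theorem Stp.symm {V : Type} {G : SimpleGraph V} {n : ℕ} {f g : ℕ → V} (h : Stp G n f g) :
    Stp G n g f := by
  rcases h with h | h | h
  · refine Or.inr (Or.inr fun k l hk hl => ?_)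
    rw [G.adj_comm, h l k hl hk]
  · refine Or.inr (Or.inl fun k l hk hl => ?_)
    rw [G.adj_comm, h l k hl hk, eq_comm]
  · refine Or.inl fun k l hk hl => ?_
    rw [G.adj_comm, h l k hl hk]

/-- few positions of consecutive rails are on different sides -/
theorem few {V : Type} [Finite V] (G : SimpleGraph V) (A : Set V) (c : ℕ)
    (hc : {T : Set V | ∃ u ∈ A, T = G.neighborSet u \ A}.ncard ≤ c) (n : ℕ) (f g : ℕ → V)
    (h : Stp G n f g) (K : Finset ℕ) (hK : ∀ k ∈ K, k < n ∧ f k ∈ A ∧ g k ∉ A) : K.card ≤ c := by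
  refine sep G A c hc K f (fun k hk => (hK k hk).2.1) ?_
  intro k hk k' hk' hlt
  obtain ⟨h1, h2, h3⟩ := hK k hk
  obtain ⟨h1', h2', h3'⟩ := hK k' hk'
  rcases h with h | h | h
  · refine ⟨g k', h3', ?_⟩
    rw [h k k' h1 h1', h k' k' h1' h1']
    omega
  · refine ⟨g k, h3, ?_⟩
    rw [h k k h1 h1, h k' k h1' h1]
    omega
  · refine ⟨g k, h3, ?_⟩
    rw [h k k h1 h1, h k' k h1' h1]
    omega

/-- the rails -/
def vx (N : ℕ) (hN : 0 < N) (n j k : ℕ) : RV N :=
  let p : Fin N := ⟨((j / 8) * n + k) % N, Nat.mod_lt _ hN⟩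
  if j % 8 = 0 then Sum.inl (3, p)
  else if j % 8 = 1 then Sum.inr (false, true, p)
  else if j % 8 = 2 then Sum.inl (1, p)
  else if j % 8 = 3 then Sum.inr (false, false, p)
  else if j % 8 = 4 then Sum.inl (0, p)
  else if j % 8 = 5 then Sum.inr (true, false, p)
  else if j % 8 = 6 then Sum.inl (2, p)
  else Sum.inr (true, true, p)

theorem vx_val {m n i k : ℕ} (hi : i < m) (hk : k < n) : (i * n + k) % (m * n) = i * n + k := by
  apply Nat.mod_eq_of_lt
  have : (i + 1) * n ≤ m * n := Nat.mul_le_mul_right n hi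
  nlinarith

theorem stp {m n : ℕ} (hN : 0 < m * n) (j : ℕ) (hj : j + 1 < 8 * m) :
    Stp (RG (m * n) n) n (vx (m * n) hN n j) (vx (m * n) hN n (j + 1)) := by
  obtain ⟨i, r, hr, rfl⟩ : ∃ i r, r < 8 ∧ j = 8 * i + r :=
    ⟨j / 8, j % 8, Nat.mod_lt _ (by norm_num), by omega⟩
  have hi : i < m := by omega
  by_cases h7 : r = 7
  · subst h7
    have hi1 : i + 1 < m := by omega
    refine Or.inr (Or.inr fun k l hk hl => ?_)
    have e1 : (8 * i + 7) / 8 = i := by omega
    have e2 : (8 * i + 7 + 1) / 8 = i + 1 := by omega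
    have e3 : (8 * i + 7) % 8 = 7 := by omega
    have e4 : (8 * i + 7 + 1) % 8 = 0 := by omega
    simp only [vx, e1, e2, e3, e4]
    show ¬ RD n 3 _ true true _ ↔ _
    simp only [vx_val hi hk, vx_val hi1 hl, RD]
    have e5 : (i + 1) * n = i * n + n := by ring
    rw [e5]
    simp
    omega
  · have e1 : (8 * i + r) / 8 = i := by omega
    have e2 : (8 * i + r + 1) / 8 = i := by omega
    have e3 : (8 * i + r) % 8 = r := by omega
    have e4 : (8 * i + r + 1) % 8 = r + 1 := by omega
    have hr7 : r < 7 := by omega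
    unfold Stp
    simp only [vx, e1, e2, e3, e4]
    interval_cases r
    · refine Or.inl fun k l hk hl => ?_
      show ¬ RD n 3 _ false true _ ↔ _
      simp only [vx_val hi hk, vx_val hi hl, RD]
      simp
    · refine Or.inr (Or.inl fun k l hk hl => ?_)
      show ¬ RD n 1 _ false true _ ↔ _
      simp only [vx_val hi hk, vx_val hi hl, RD]
      simp
    · refine Or.inr (Or.inr fun k l hk hl => ?_)
      show ¬ RD n 1 _ false false _ ↔ _
      simp only [vx_val hi hk, vx_val hi hl, RD]
      simp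
    · refine Or.inl fun k l hk hl => ?_
      show ¬ RD n 0 _ false false _ ↔ _
      simp only [vx_val hi hk, vx_val hi hl, RD]
      simp
    · refine Or.inr (Or.inr fun k l hk hl => ?_)
      show ¬ RD n 0 _ true false _ ↔ _
      simp only [vx_val hi hk, vx_val hi hl, RD]
      simp
    · refine Or.inl fun k l hk hl => ?_
      show ¬ RD n 2 _ true false _ ↔ _
      simp only [vx_val hi hk, vx_val hi hl, RD]
      simp
    · refine Or.inr (Or.inl fun k l hk hl => ?_)
      show ¬ RD n 2 _ true true _ ↔ _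
      simp only [vx_val hi hk, vx_val hi hl, RD]
      simp [eq_comm]

/-- the first rail -/
theorem vx_zero {m n k : ℕ} (hm : 0 < m) (hN : 0 < m * n) (hk : k < n) (i : ℕ) (hi : i < m) :
    vx (m * n) hN n (8 * i) k = Sum.inl (3, ⟨i * n + k, by
      have : (i + 1) * n ≤ m * n := Nat.mul_le_mul_right n hi
      nlinarith⟩) := by
  have e1 : 8 * i / 8 = i := by omega
  have e2 : 8 * i % 8 = 0 := by omega
  simp only [vx, e1, e2, vx_val hi hk]
  simp

theorem vx_one {m n k : ℕ} (hm : 0 < m) (hN : 0 < m * n) (hk : k < n) (i : ℕ) (hi : i < m) :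
    vx (m * n) hN n (8 * i + 1) k = Sum.inr (false, true, ⟨i * n + k, by
      have : (i + 1) * n ≤ m * n := Nat.mul_le_mul_right n hi
      nlinarith⟩) := by
  have e1 : (8 * i + 1) / 8 = i := by omega
  have e2 : (8 * i + 1) % 8 = 1 := by omega
  simp only [vx, e1, e2, vx_val hi hk]
  simp

/-- **UB3.** -/
theorem unb : S_Unb := by
  classical
  intro c
  obtain ⟨m, hm⟩ : ∃ m, m = c + 1 := ⟨_, rfl⟩
  obtain ⟨E, hE⟩ : ∃ E, E = 8 * m * (2 * c) := ⟨_, rfl⟩
  obtain ⟨n, hn⟩ : ∃ n, n = 3 * E + 3 := ⟨_, rfl⟩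
  have hm0 : 0 < m := by omega
  have hn0 : 0 < n := by omega
  have hN : 0 < m * n := Nat.mul_pos hm0 hn0
  refine ⟨m * n, n, hN, fun hcw => ?_⟩
  -- the set `M`
  have hinj : Set.InjOn (fun k => vx (m * n) hN n 0 k) (Finset.range n : Set ℕ) := by
    intro k hk k' hk' he
    have hk1 : k < n := by simpa using hk
    have hk1' : k' < n := by simpa using hk'
    have he' : vx (m * n) hN n (8 * 0) k = vx (m * n) hN n (8 * 0) k' := he
    rw [vx_zero hm0 hN hk1 0 hm0, vx_zero hm0 hN hk1' 0 hm0] at he'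
    simp only [Sum.inl.injEq, Prod.mk.injEq, Fin.mk.injEq] at he'
    omega
  have hM : ((fun k => vx (m * n) hN n 0 k) '' (Finset.range n : Set ℕ)).ncard = n := by
    rw [Set.ncard_image_of_injOn hinj, Set.ncard_coe_finset, Finset.card_range]
  obtain ⟨A, hA1, hA2, hA3⟩ := cwCut _ (RG (m * n) n) c hcw _ (by rw [hM]; omega)
  rw [hM] at hA1 hA2
  -- the positions in `A`
  set P : ℕ → Finset ℕ := fun j => (Finset.range n).filter (fun k => vx (m * n) hN n j k ∈ A) with hP
  have hP0 : (A ∩ (fun k => vx (m * n) hN n 0 k) '' (Finset.range n : Set ℕ)).ncard = (P 0).card := by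
    have : A ∩ (fun k => vx (m * n) hN n 0 k) '' (Finset.range n : Set ℕ) =
        (fun k => vx (m * n) hN n 0 k) '' (P 0 : Set ℕ) := by
      ext v
      constructor
      · rintro ⟨hv, k, hk, rfl⟩
        exact ⟨k, by simpa [hP] using ⟨by simpa using hk, hv⟩, rfl⟩
      · rintro ⟨k, hk, rfl⟩
        have : k < n ∧ vx (m * n) hN n 0 k ∈ A := by simpa [hP] using hk
        exact ⟨this.2, k, by simpa using this.1, rfl⟩
    rw [this, Set.ncard_image_of_injOn (hinj.mono (by intro k hk; simp [hP] at hk ⊢; exact hk.1)),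
      Set.ncard_coe_finset]
  rw [hP0] at hA1 hA2
  -- the bad positions
  set Bad : Finset ℕ := (Finset.range (8 * m - 1)).biUnion (fun j => (P j \ P (j + 1)) ∪ (P (j + 1) \ P j))
    with hBad
  have hb : Bad.card ≤ E := by
    have h1 : ∀ j ∈ Finset.range (8 * m - 1), ((P j \ P (j + 1)) ∪ (P (j + 1) \ P j)).card ≤ 2 * c := by
      intro j hj
      have hj' : j + 1 < 8 * m := by
        have := Finset.mem_range.mp hj
        omega
      have hs := stp hN j hj'
      have k1 := few _ A c hA3 n _ _ hs (P j \ P (j + 1)) (by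
        intro k hk
        simp only [hP, Finset.mem_sdiff, Finset.mem_filter, Finset.mem_range, not_and] at hk
        exact ⟨hk.1.1, hk.1.2, hk.2 hk.1.1⟩)
      have k2 := few _ A c hA3 n _ _ hs.symm (P (j + 1) \ P j) (by
        intro k hk
        simp only [hP, Finset.mem_sdiff, Finset.mem_filter, Finset.mem_range, not_and] at hk
        exact ⟨hk.1.1, hk.1.2, hk.2 hk.1.1⟩)
      have k3 := Finset.card_union_le (P j \ P (j + 1)) (P (j + 1) \ P j)
      omega
    have h2 := Finset.card_biUnion_le_card_mul _ _ (2 * c) h1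
    rw [Finset.card_range] at h2
    have h3 : (8 * m - 1) * (2 * c) ≤ 8 * m * (2 * c) := Nat.mul_le_mul_right _ (by omega)
    calc Bad.card ≤ (8 * m - 1) * (2 * c) := h2
      _ ≤ E := by rw [hE]; exact h3
  -- uniform positions
  have hsub : (P 0).card ≤ n := by
    have := Finset.card_filter_le (Finset.range n) (fun k => vx (m * n) hN n 0 k ∈ A)
    rw [Finset.card_range] at this
    exact this
  obtain ⟨k, hk, hkb⟩ : ∃ k ∈ P 0, k ∉ Bad := by
    by_contra hcon
    push Not at hcon
    have := Finset.card_le_card (show P 0 ⊆ Bad from fun k hk => hcon k hk)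
    omega
  obtain ⟨l, hl, hlb⟩ : ∃ l ∈ Finset.range n \ P 0, l ∉ Bad := by
    by_contra hcon
    push Not at hcon
    have h1 := Finset.card_le_card (show Finset.range n \ P 0 ⊆ Bad from fun k hk => hcon k hk)
    have h2 := Finset.le_card_sdiff (P 0) (Finset.range n)
    rw [Finset.card_range] at h2
    omega
  have hkn : k < n := by
    have := (Finset.mem_filter.mp hk).1
    simpa using this
  have hln : l < n := by
    have := (Finset.mem_sdiff.mp hl).1
    simpa using this
  have step : ∀ x, x ∉ Bad → ∀ j, j < 8 * m → (x ∈ P j ↔ x ∈ P 0) := by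
    intro x hx j
    induction j with
    | zero => intro _; exact Iff.rfl
    | succ j ih =>
      intro hj
      rw [← ih (by omega)]
      by_contra hcon
      apply hx
      rw [hBad, Finset.mem_biUnion]
      refine ⟨j, Finset.mem_range.mpr (by omega), ?_⟩
      rw [Finset.mem_union, Finset.mem_sdiff, Finset.mem_sdiff]
      tauto
  have hkA : ∀ j, j < 8 * m → vx (m * n) hN n j k ∈ A := fun j hj =>
    (Finset.mem_filter.mp ((step k hkb j hj).mpr hk)).2
  have hlA : ∀ j, j < 8 * m → vx (m * n) hN n j l ∉ A := by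
    intro j hj h
    have h1 : l ∈ P j := Finset.mem_filter.mpr ⟨by simpa using hln, h⟩
    exact (Finset.mem_sdiff.mp hl).2 ((step l hlb j hj).mp h1)
  have hkl : k ≠ l := by
    rintro rfl
    exact (Finset.mem_sdiff.mp hl).2 hk
  -- different traces
  have key := sep _ A c hA3 (Finset.range m) (fun i => vx (m * n) hN n (8 * i) k)
    (fun i hi => hkA _ (by have := Finset.mem_range.mp hi; omega)) (by
      intro i hi i' hi' hlt
      have hi1 := Finset.mem_range.mp hi
      have hi1' := Finset.mem_range.mp hi'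
      have adj : ∀ a b, a < m → b < m → ((RG (m * n) n).Adj (vx (m * n) hN n (8 * a) k)
          (vx (m * n) hN n (8 * b + 1) l) ↔ ¬ a * n + k < b * n + l) := by
        intro a b ha hb
        rw [vx_zero hm0 hN hkn a ha, vx_one hm0 hN hln b hb]
        show ¬ RD n 3 _ false true _ ↔ _
        simp only [RD]
        simp
      have hmul : i * n + n ≤ i' * n := by
        have : (i + 1) * n ≤ i' * n := Nat.mul_le_mul_right n hlt
        nlinarith
      rcases Nat.lt_or_gt_of_ne hkl with h | h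
      · refine ⟨vx (m * n) hN n (8 * i + 1) l, hlA _ (by omega), ?_⟩
        simp only [adj i i hi1 hi1, adj i' i hi1' hi1]
        omega
      · refine ⟨vx (m * n) hN n (8 * i' + 1) l, hlA _ (by omega), ?_⟩
        simp only [adj i i' hi1 hi1', adj i' i' hi1' hi1']
        omega)
  rw [Finset.card_range] at key
  omega

end Pool.Agent.MPd439b2.UB
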