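import Pool.Agent.Lib.MP_d439b2_co.UB.NoH
import Pool.Agent.Lib.MP_d439b2_co.UB.NoJ
import Pool.Agent.Lib.MP_d439b2_co.UB.Unb
import Pool.Agent.Lib.MP_d439b2_co.B.FD

/-!
# MP_d439b2_co, UB: the pair (`K3:0,1,02`, `co(4 P_2)`) has unbounded clique-width
-/

set_option autoImplicit false

namespace Pool.Agent.MPd439b2.UB

open Pool.Agent.MPd439b2 Pool.Agent.MPd439b2.F9

/-- If the class of a pair has bounded clique-width, then one of the two graphs is an induced minor of a graph of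
the family. -/
theorem nec {W₁ W₂ : Type} {H₁ : SimpleGraph W₁} {H₂ : SimpleGraph W₂} (h : BoundedCW H₁ H₂) :
    (∃ N n : ℕ, IsIndMinor H₁ (RG N n)) ∨ (∃ N n : ℕ, IsIndMinor H₂ (RG N n)) := by
  by_contra hno
  push Not at hno
  obtain ⟨c, hc⟩ := h
  obtain ⟨N, n, hN, hn⟩ := unb c
  have : Nonempty (RV N) := ⟨Sum.inl (0, ⟨0, hN⟩)⟩
  exact hn (hc (RV N) (RG N n) (hno.1 N n) (hno.2 N n))

/-- The pair (`K3:0,1,02`, `co(4 P_2)`) has unbounded clique-width. -/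
theorem ub : ¬ BoundedCW (KF 3 3 ![{0}, {1}, {0, 2}]) (JS ![0, 0, 1] 3) := by
  intro h
  rcases nec h with ⟨N, n, h1⟩ | ⟨N, n, h1⟩
  · exact noH N n h1
  · exact noJ N n h1

/-- Every pair whose first graph has the induced minor `K3:0,1,02` and whose second graph has the induced minor
`co(4 P_2)` has unbounded clique-width. -/
theorem ubG {W₁ W₂ : Type} {H₁ : SimpleGraph W₁} {H₂ : SimpleGraph W₂}
    (h₁ : IsIndMinor (KF 3 3 ![{0}, {1}, {0, 2}]) H₁) (h₂ : IsIndMinor (JS ![0, 0, 1] 3) H₂) :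
    ¬ BoundedCW H₁ H₂ := by
  intro h
  rcases nec h with ⟨N, n, h3⟩ | ⟨N, n, h3⟩
  · exact noH N n (FDAux.indMinor_trans h₁ h3)
  · exact noJ N n (FDAux.indMinor_trans h₂ h3)

/-- the same with the two graphs exchanged -/
theorem ubG' {W₁ W₂ : Type} {H₁ : SimpleGraph W₁} {H₂ : SimpleGraph W₂}
    (h₁ : IsIndMinor (KF 3 3 ![{0}, {1}, {0, 2}]) H₁) (h₂ : IsIndMinor (JS ![0, 0, 1] 3) H₂) :
    ¬ BoundedCW H₂ H₁ := by
  intro h
  rcases nec h with ⟨N, n, h3⟩ | ⟨N, n, h3⟩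
  · exact noJ N n (FDAux.indMinor_trans h₂ h3)
  · exact noH N n (FDAux.indMinor_trans h₁ h3)

end Pool.Agent.MPd439b2.UB
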