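import Pool.Agent.Lib.MP_d439b2_co.UB.Defs

/-!
# MP_d439b2_co, UB: branch sets in `RG N n`
-/

set_option autoImplicit false

namespace Pool.Agent.MPd439b2.UB

open Pool.Agent.MPd439b2 Pool.Agent.MPd439b2.F9

variable {N n : ℕ}

theorem bne {b b' : Bool} (h : b' ≠ b) : b' = !b := by
  cases b <;> cases b' <;> simp_all

/-- the set contains a vertex of the clique -/
def hC (B : Set (RV N)) : Prop := ∃ x, Sum.inl x ∈ B

/-- the set contains a vertex of the stable set `b` -/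
def hZ (B : Set (RV N)) (b : Bool) : Prop := ∃ z : Bool × Fin N, Sum.inr (b, z) ∈ B

theorem adj_of_hC {A B : Set (RV N)} (hd : Disjoint A B) (hA : hC A) (hB : hC B) :
    ∃ x ∈ A, ∃ y ∈ B, (RG N n).Adj x y := by
  obtain ⟨x, hx⟩ := hA
  obtain ⟨y, hy⟩ := hB
  refine ⟨_, hx, _, hy, ?_⟩
  show x ≠ y
  rintro rfl
  exact Set.disjoint_left.mp hd hx hy

theorem adj_of_hZ {A B : Set (RV N)} {b : Bool} (hA : hZ A b) (hB : hZ B (!b)) :
    ∃ x ∈ A, ∃ y ∈ B, (RG N n).Adj x y := by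
  obtain ⟨x, hx⟩ := hA
  obtain ⟨y, hy⟩ := hB
  refine ⟨_, hx, _, hy, ?_⟩
  show b ≠ !b
  cases b <;> simp

/-- an element of a set without clique vertices -/
theorem hZ_of {B : Set (RV N)} (hne : B.Nonempty) (h : ¬ hC B) : ∃ b, hZ B b := by
  obtain ⟨v, hv⟩ := hne
  rcases v with x | ⟨b, z⟩
  · exact absurd ⟨x, hv⟩ h
  · exact ⟨b, z, hv⟩

/-- a connected set without clique vertices and without vertices of the stable set `!b` is a single vertex -/
theorem single_of {B : Set (RV N)} {b : Bool} (hc : Conn (RG N n) B) (h : ¬ hC B) (h' : ¬ hZ B (!b)) :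
    ∃ z : Bool × Fin N, B = {Sum.inr (b, z)} := by
  obtain ⟨v, hv⟩ := hc.1
  have key : ∀ v ∈ B, ∃ z : Bool × Fin N, v = Sum.inr (b, z) := by
    intro v hv
    rcases v with x | ⟨b', z⟩
    · exact absurd ⟨x, hv⟩ h
    · have : b' = b := by
        by_contra hb
        have hb' : b' = !b := by cases b <;> cases b' <;> simp_all
        exact h' ⟨z, hb' ▸ hv⟩
      exact ⟨z, by rw [this]⟩
  obtain ⟨z, rfl⟩ := key v hv
  refine ⟨z, ?_⟩
  by_contra hne
  obtain ⟨x, hx, y, hy, hxy⟩ := hc.2 {Sum.inr (b, z)} (Set.singleton_subset_iff.mpr hv)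
    ⟨_, rfl⟩ (fun h => hne h.symm)
  obtain ⟨z1, rfl⟩ := key x (by rw [Set.mem_singleton_iff.mp hx]; exact hv)
  obtain ⟨z2, rfl⟩ := key y hy.1
  exact hxy rfl

/-- the vertices of the stable set `b` do not see each other -/
theorem not_adj_ss {b : Bool} {z w : Bool × Fin N} : ¬ (RG N n).Adj (Sum.inr (b, z)) (Sum.inr (b, w)) :=
  fun h => h rfl

end Pool.Agent.MPd439b2.UB
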