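import Pool.Agent.Lib.MP_d439b2_co.Basic
import Pool.Agent.Lib.MP_d439b2_co.F9.SpecH

/-!
# MP_d439b2_co, UB: the family `RG N n`

A class of graphs of unbounded clique-width without the induced minors `K3:0,1,02` and `co(4 P_2)`
(helper29, note 3007).
-/

set_option autoImplicit false

namespace Pool.Agent.MPd439b2.UB

open Pool.Agent.MPd439b2 Pool.Agent.MPd439b2.F9

/-- The non-adjacencies between the clique vertex of class `a` (`0 = t`, `1 = k`, `2 = k'`, `3 = u`) and index `p`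
and the vertex of the stable set `b` (`false`: `Z_1`, `true`: `Z_2`) of kind `e` (`false`: `y`, `true`: `s`) and
index `q`. -/
def RD (n : ℕ) (a : Fin 4) (p : ℕ) (b e : Bool) (q : ℕ) : Prop :=
  (a = 0 ∧ e = false ∧ q < p) ∨
  (a = 1 ∧ b = false ∧ ((e = false ∧ q < p) ∨ (e = true ∧ q = p))) ∨
  (a = 2 ∧ b = true ∧ ((e = false ∧ q < p) ∨ (e = true ∧ q = p))) ∨
  (a = 3 ∧ (e = false ∨ (b = false ∧ p < q) ∨ (b = true ∧ p < q + n)))

/-- the vertices: the clique vertices `(a, p)` and the vertices `(b, e, q)` of the two stable sets -/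
abbrev RV (N : ℕ) : Type := (Fin 4 × Fin N) ⊕ (Bool × Bool × Fin N)

/-- The graph: a clique, two stable sets which are complete to each other, and the complement of `RD` between the
clique and the stable sets. -/
def RG (N n : ℕ) : SimpleGraph (RV N) where
  Adj
    | Sum.inl x, Sum.inl y => x ≠ y
    | Sum.inl x, Sum.inr z => ¬ RD n x.1 x.2.val z.1 z.2.1 z.2.2.val
    | Sum.inr z, Sum.inl x => ¬ RD n x.1 x.2.val z.1 z.2.1 z.2.2.val
    | Sum.inr z, Sum.inr w => z.1 ≠ w.1
  symm := ⟨fun u v h => by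
    rcases u with u | u <;> rcases v with v | v
    · exact Ne.symm h
    · exact h
    · exact h
    · exact Ne.symm h⟩
  loopless := ⟨fun u h => by
    rcases u with u | u
    · exact h rfl
    · exact h rfl⟩

/-- no `K3:0,1,02` -/
def S_NoH : Prop := ∀ N n : ℕ, ¬ IsIndMinor (KF 3 3 ![{0}, {1}, {0, 2}]) (RG N n)

/-- no `co(4 P_2)` -/
def S_NoJ : Prop := ∀ N n : ℕ, ¬ IsIndMinor (JS ![0, 0, 1] 3) (RG N n)

/-- unbounded clique-width -/
def S_Unb : Prop := ∀ c : ℕ, ∃ N n : ℕ, 1 ≤ N ∧ ¬ CWLe c (RG N n)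

end Pool.Agent.MPd439b2.UB
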