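import Pool.Agent.Lib.MP_d439b2_co.UB.Final
import Pool.Agent.Lib.MP_d439b2_co.F9.SpecX

/-!
# MP_d439b2_co, UB: the final form with `F9.J44 = co(4 P_2)`
-/

set_option autoImplicit false

namespace Pool.Agent.MPd439b2.UB

open Pool.Agent.MPd439b2 Pool.Agent.MPd439b2.F9

/-- the image of a vertex of `JS ![0, 0, 1] 3` in `J44` -/
def toJ : Option (Σ i : Fin 3, Fin (![0, 0, 1] i)) ⊕ (Fin 3 × Bool) → Fin 4 × Bool
  | Sum.inl none => (3, false)
  | Sum.inl (some _) => (3, true)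
  | Sum.inr (i, b) => (i.castSucc, b)

instance (u v : Option (Σ i : Fin 3, Fin (![0, 0, 1] i)) ⊕ (Fin 3 × Bool)) :
    Decidable ((JS ![0, 0, 1] 3).Adj u v) := by
  rcases u with (_ | u) | u <;> rcases v with (_ | v) | v <;>
    simp only [JS, Spid] <;> infer_instance

instance (u v : Fin 4 × Bool) : Decidable (J44.Adj u v) :=
  inferInstanceAs (Decidable (u.1 ≠ v.1))

theorem jsub : IsIndSub (JS ![0, 0, 1] 3) J44 := by
  refine ⟨toJ, ?_, ?_⟩
  · intro u v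
    revert u v
    decide
  · intro u v
    revert u v
    decide

/-- **the final form** -/
theorem ubJ : ¬ BoundedCW (KF 3 3 ![{0}, {1}, {0, 2}]) J44 :=
  ubG (FDAux.indMinor_of_indSub ⟨id, fun _ _ h => h, fun _ _ => Iff.rfl⟩) (FDAux.indMinor_of_indSub jsub)

/-- the general form with `J44` -/
theorem ubJG {W₁ W₂ : Type} {H₁ : SimpleGraph W₁} {H₂ : SimpleGraph W₂}
    (h₁ : IsIndMinor (KF 3 3 ![{0}, {1}, {0, 2}]) H₁) (h₂ : IsIndMinor J44 H₂) :
    ¬ BoundedCW H₁ H₂ ∧ ¬ BoundedCW H₂ H₁ :=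
  ⟨ubG h₁ (FDAux.indMinor_trans (FDAux.indMinor_of_indSub jsub) h₂),
    ubG' h₁ (FDAux.indMinor_trans (FDAux.indMinor_of_indSub jsub) h₂)⟩

end Pool.Agent.MPd439b2.UB
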