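import Pool.Agent.Lib.MP_d439b2_co.UB.Bags

/-!
# MP_d439b2_co, UB: `RG N n` has no induced minor `K3:0,1,02`
-/

set_option autoImplicit false

namespace Pool.Agent.MPd439b2.UB

open Pool.Agent.MPd439b2 Pool.Agent.MPd439b2.F9

/-- a row which contains `s_q` and misses `y_(q0)` -/
theorem row_s {n : ℕ} {b : Bool} {a : Fin 4} {p q q0 : ℕ} (h : RD n a p b true q)
    (h0 : ¬ RD n a p b false q0) : p = q ∧ q ≤ q0 ∧ (a = 1 ∨ a = 2) := by
  simp only [RD] at h h0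
  fin_cases a <;> cases b <;> simp at h h0 ⊢ <;> omega

/-- a row which misses `y_q` misses `y_r` for `q ≤ r` -/
theorem row_y {n : ℕ} {b : Bool} {a : Fin 4} {p q r : ℕ} (h : RD n a p b false r)
    (h0 : ¬ RD n a p b false q) : r < q := by
  simp only [RD] at h h0
  fin_cases a <;> cases b <;> simp at h h0 ⊢ <;> omega

/-- two crossing rows: one of them is a row `k` -/
theorem row_c {n : ℕ} {b : Bool} {a1 a2 : Fin 4} {p1 p2 : ℕ} {e1 e2 e0 : Bool} {q1 q2 q0 : ℕ}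
    (h12 : RD n a1 p1 b e2 q2) (h11 : ¬ RD n a1 p1 b e1 q1)
    (h21 : RD n a2 p2 b e1 q1) (h22 : ¬ RD n a2 p2 b e2 q2)
    (h10 : RD n a1 p1 b e0 q0) (h20 : RD n a2 p2 b e0 q0) :
    (a1 = 1 ∨ a1 = 2 ∨ a2 = 1 ∨ a2 = 2) ∧ e0 = false := by
  simp only [RD] at *
  fin_cases a1 <;> fin_cases a2 <;> cases b <;> simp at h12 h11 h21 h22 h10 h20 ⊢ <;>
    cases e0 <;> cases e1 <;> cases e2 <;> simp at h12 h11 h21 h22 h10 h20 ⊢ <;> omega

theorem rows {n : ℕ} {b : Bool} {a1 a2 a : Fin 4} {p1 p2 p : ℕ} {e0 e1 e2 : Bool} {q0 q1 q2 : ℕ}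
    (h10 : RD n a1 p1 b e0 q0) (h12 : RD n a1 p1 b e2 q2) (h11 : ¬ RD n a1 p1 b e1 q1)
    (h20 : RD n a2 p2 b e0 q0) (h21 : RD n a2 p2 b e1 q1) (h22 : ¬ RD n a2 p2 b e2 q2)
    (h1 : RD n a p b e1 q1) (h0 : ¬ RD n a p b e0 q0) : False := by
  obtain ⟨-, rfl⟩ := row_c h12 h11 h21 h22 h10 h20
  cases e1
  · have r1 := row_y h1 h0
    have r2 := row_y h10 h11
    omega
  · obtain ⟨-, hq, -⟩ := row_s h1 h0
    clear h1 h0
    simp only [RD] at *
    fin_cases a1 <;> fin_cases a2 <;> cases b <;> simp at h12 h11 h21 h22 h10 h20 <;>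
      cases e2 <;> simp at h12 h22 <;> omega

/-- **UB1.** -/
theorem noH : S_NoH := by
  rintro N n ⟨B, hcon, hdis, hadj⟩
  have hco : ∀ w, Conn (RG N n) (B w) := fun w => (conn_iff _ _).mpr (hcon w)
  -- the independent vertices
  have yy : ∀ q q' : Fin 3, q ≠ q' → ¬ ∃ x ∈ B (Sum.inr q), ∃ y ∈ B (Sum.inr q'), (RG N n).Adj x y := by
    intro q q' hne h
    exact (hadj (Sum.inr q) (Sum.inr q') (fun h => hne (Sum.inr_injective h))).mpr h
  have hyy : ∀ q q' : Fin 3, q ≠ q' → hC (B (Sum.inr q)) → ¬ hC (B (Sum.inr q')) := fun q q' hne h h' =>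
    yy q q' hne (adj_of_hC (hdis _ _ (fun h => hne (Sum.inr_injective h))) h h')
  have hzz : ∀ (q q' : Fin 3) (b : Bool), q ≠ q' → hZ (B (Sum.inr q)) b → ¬ hZ (B (Sum.inr q')) (!b) :=
    fun q q' b hne h h' => yy q q' hne (adj_of_hZ h h')
  -- edges and non-edges between the clique and the independent vertices
  have ne : ∀ (i q : Fin 3), i ∉ ((![{0}, {1}, {0, 2}] : Fin 3 → Finset (Fin 3)) q) →
      ∀ x ∈ B (Sum.inl i), ∀ y ∈ B (Sum.inr q), ¬ (RG N n).Adj x y := by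
    intro i q h x hx y hy hxy
    exact h ((hadj (Sum.inl i) (Sum.inr q) (by simp)).mpr ⟨x, hx, y, hy, hxy⟩)
  have ed : ∀ (i q : Fin 3), i ∈ ((![{0}, {1}, {0, 2}] : Fin 3 → Finset (Fin 3)) q) →
      ∃ x ∈ B (Sum.inl i), ∃ y ∈ B (Sum.inr q), (RG N n).Adj x y := by
    intro i q h
    exact (hadj (Sum.inl i) (Sum.inr q) (by simp)).mp h
  -- two of them contain no clique vertex
  obtain ⟨q1, q2, h12, hq1, hq2⟩ : ∃ q1 q2 : Fin 3, q1 ≠ q2 ∧ ¬ hC (B (Sum.inr q1)) ∧ ¬ hC (B (Sum.inr q2)) := by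
    by_cases h0 : hC (B (Sum.inr 0))
    · exact ⟨1, 2, by decide, hyy 0 1 (by decide) h0, hyy 0 2 (by decide) h0⟩
    · by_cases h1 : hC (B (Sum.inr 1))
      · exact ⟨0, 2, by decide, h0, hyy 1 2 (by decide) h1⟩
      · exact ⟨0, 1, by decide, h0, h1⟩
  obtain ⟨b, hb⟩ := hZ_of (hco _).1 hq1
  have hb2 : hZ (B (Sum.inr q2)) b := by
    obtain ⟨b', hb'⟩ := hZ_of (hco _).1 hq2
    by_cases hbb : b' = b
    · exact hbb ▸ hb'
    · exact absurd (bne hbb ▸ hb') (hzz q1 q2 b h12 hb)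
  -- no vertices of the other stable set
  have hnb : ∀ q : Fin 3, ¬ hZ (B (Sum.inr q)) (!b) := by
    intro q
    by_cases h : q1 = q
    · subst h
      exact hzz q2 q1 b h12.symm hb2
    · exact hzz q1 q b h hb
  -- the vertices of the stable set `b`
  have hyb : ∀ q : Fin 3, ¬ hC (B (Sum.inr q)) → hZ (B (Sum.inr q)) b := by
    intro q hq
    obtain ⟨b', hb'⟩ := hZ_of (hco _).1 hq
    by_cases hbb : b' = b
    · exact hbb ▸ hb'
    · exact absurd (bne hbb ▸ hb') (hnb q)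
  -- a clique vertex of `K3:0,1,02` which misses `y_q` has no vertex of the other stable set
  have hno : ∀ (i q : Fin 3), i ∉ ((![{0}, {1}, {0, 2}] : Fin 3 → Finset (Fin 3)) q) →
      ¬ hC (B (Sum.inr q)) → ¬ hZ (B (Sum.inl i)) (!b) := by
    intro i q h hq hz
    obtain ⟨x, hx, y, hy, hxy⟩ := adj_of_hZ (n := n) (hyb q hq) hz
    exact ne i q h y hy x hx hxy.symm
  have n1 : ¬ hZ (B (Sum.inl 1)) (!b) := by
    by_cases h : hC (B (Sum.inr 0))
    · exact hno 1 2 (by decide) (hyy 0 2 (by decide) h)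
    · exact hno 1 0 (by decide) h
  have n2 : ¬ hZ (B (Sum.inl 2)) (!b) := by
    by_cases h : hC (B (Sum.inr 0))
    · exact hno 2 1 (by decide) (hyy 0 1 (by decide) h)
    · exact hno 2 0 (by decide) h
  -- a set which sees a `y` without clique vertices
  have hcl : ∀ (i q : Fin 3), i ∈ ((![{0}, {1}, {0, 2}] : Fin 3 → Finset (Fin 3)) q) →
      ¬ hC (B (Sum.inr q)) → ¬ hZ (B (Sum.inl i)) (!b) → hC (B (Sum.inl i)) := by
    intro i q h hq hz
    obtain ⟨x, hx, y, hy, hxy⟩ := ed i q h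
    rcases x with x | ⟨bx, x⟩
    · exact ⟨x, hx⟩
    · exfalso
      have hbx : bx = b := by
        by_contra hbb
        have : bx = !b := bne hbb
        exact hz ⟨x, this ▸ hx⟩
      rcases y with y | ⟨by_, y⟩
      · exact hq ⟨y, hy⟩
      · have hby : by_ = b := by
          by_contra hbb
          have : by_ = !b := bne hbb
          exact hnb q ⟨y, this ▸ hy⟩
        exact hxy (by rw [hbx, hby])
  have hmis : ∀ (i q : Fin 3), i ∉ ((![{0}, {1}, {0, 2}] : Fin 3 → Finset (Fin 3)) q) →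
      hC (B (Sum.inl i)) → ¬ hC (B (Sum.inr q)) := by
    intro i q h hi hq
    obtain ⟨x, hx, y, hy, hxy⟩ := adj_of_hC (n := n) (hdis _ _ (by simp)) hi hq
    exact ne i q h x hx y hy hxy
  -- no clique vertex in `y_1`
  have c1 : ¬ hC (B (Sum.inr 1)) := by
    intro h
    have h2 : hC (B (Sum.inl 2)) := hcl 2 2 (by decide) (hyy 1 2 (by decide) h) n2
    exact hmis 2 1 (by decide) h2 h
  have k1 : hC (B (Sum.inl 1)) := hcl 1 1 (by decide) c1 n1
  have c0 : ¬ hC (B (Sum.inr 0)) := hmis 1 0 (by decide) k1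
  have c2 : ¬ hC (B (Sum.inr 2)) := hmis 1 2 (by decide) k1
  have n0 : ¬ hZ (B (Sum.inl 0)) (!b) := hno 0 1 (by decide) c1
  -- the singletons
  have hsg : ∀ q : Fin 3, ∃ z : Bool × Fin N, B (Sum.inr q) = {Sum.inr (b, z)} := by
    intro q
    refine single_of (hco _) ?_ (hnb q)
    fin_cases q
    · exact c0
    · exact c1
    · exact c2
  obtain ⟨z0, hz0⟩ := hsg 0
  obtain ⟨z1, hz1⟩ := hsg 1
  obtain ⟨z2, hz2⟩ := hsg 2
  -- the rows
  have get : ∀ (i q : Fin 3) (z : Bool × Fin N), B (Sum.inr q) = {Sum.inr (b, z)} →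
      i ∈ ((![{0}, {1}, {0, 2}] : Fin 3 → Finset (Fin 3)) q) → ¬ hZ (B (Sum.inl i)) (!b) →
      ∃ x, Sum.inl x ∈ B (Sum.inl i) ∧ ¬ RD n x.1 x.2.val b z.1 z.2.val := by
    intro i q z hz h hi
    obtain ⟨x, hx, y, hy, hxy⟩ := ed i q h
    rw [hz, Set.mem_singleton_iff] at hy
    subst hy
    rcases x with x | ⟨bx, x⟩
    · exact ⟨x, hx, hxy⟩
    · exfalso
      have hbx : bx = b := by
        by_contra hbb
        have : bx = !b := bne hbb
        exact hi ⟨x, this ▸ hx⟩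
      exact hxy hbx
  have miss : ∀ (i q : Fin 3) (z : Bool × Fin N), B (Sum.inr q) = {Sum.inr (b, z)} →
      i ∉ ((![{0}, {1}, {0, 2}] : Fin 3 → Finset (Fin 3)) q) → ∀ x, Sum.inl x ∈ B (Sum.inl i) →
      RD n x.1 x.2.val b z.1 z.2.val := by
    intro i q z hz h x hx
    by_contra hr
    exact ne i q h _ hx (Sum.inr (b, z)) (by rw [hz]; rfl) hr
  obtain ⟨x1, hx1, r1⟩ := get 1 1 z1 hz1 (by decide) n1
  obtain ⟨x2, hx2, r2⟩ := get 2 2 z2 hz2 (by decide) n2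
  obtain ⟨x0, hx0, r0⟩ := get 0 0 z0 hz0 (by decide) n0
  exact rows (miss 1 0 z0 hz0 (by decide) x1 hx1) (miss 1 2 z2 hz2 (by decide) x1 hx1) r1
    (miss 2 0 z0 hz0 (by decide) x2 hx2) (miss 2 1 z1 hz1 (by decide) x2 hx2) r2
    (miss 0 1 z1 hz1 (by decide) x0 hx0) r0

end Pool.Agent.MPd439b2.UB
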